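import Pool.Agent.Lib.MP_6bc78b_nt.GP.Iface

/-! Project GP, module CHB (helper30): the measure of the centres without simple zeros nearby. -/

set_option autoImplicit false

open Complex Filter Topology MeasureTheory ArithmeticFunction Set
open scoped ENNReal

namespace Pool.Agent.Lib.MP_6bc78b_nt.GP.H30

open Pool.Agent.Lib.MP_6bc78b_nt Pool.Agent.Lib.MP_6bc78b_nt.MS Pool.Agent.Lib.MP_6bc78b_nt.MS.P1

/-- the set of the centres is measurable -/
theorem meas_centres (T r : ℝ) : MeasurableSet {t : ℝ | T ≤ t ∧ t ≤ 2 * T ∧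
    ∀ γ : ℝ, |γ - t| < r → mz γ ≠ 1} := by
  have h : {t : ℝ | T ≤ t ∧ t ≤ 2 * T ∧ ∀ γ : ℝ, |γ - t| < r → mz γ ≠ 1} =
      Icc T (2 * T) ∩ (⋃ γ ∈ {γ : ℝ | mz γ = 1}, Metric.ball γ r)ᶜ := by
    ext t
    simp only [Set.mem_setOf_eq, Set.mem_inter_iff, Set.mem_Icc, Set.mem_compl_iff,
      Set.mem_iUnion, Metric.mem_ball, Real.dist_eq, exists_prop, not_exists, not_and]
    constructor
    · rintro ⟨h1, h2, h3⟩
      exact ⟨⟨h1, h2⟩, fun γ hγ hlt => h3 γ (by rwa [abs_sub_comm]) hγ⟩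
    · rintro ⟨⟨h1, h2⟩, h3⟩
      exact ⟨h1, h2, fun γ hlt hγ => h3 γ hγ (by rwa [abs_sub_comm])⟩
  rw [h]
  refine measurableSet_Icc.inter (IsOpen.measurableSet ?_).compl
  exact isOpen_biUnion fun γ _ => Metric.isOpen_ball

theorem chb (hdx : DX1Statement) (havg : AVGStatement) (hplt : PLTStatement)
    (hcon : CONStatement) (hlft : LFTStatement) (htls : TLSStatement) : CHBStatement := by
  intro hRH
  obtain ⟨A, B, D, hD⟩ := hdx hRH
  obtain ⟨C₁, T₁, hC₁, hT₁, h1⟩ := havg hRH A B D hD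
  obtain ⟨T₂, h2⟩ := eventually_atTop.1 (hcon hRH A B)
  obtain ⟨c, C₃, T₃, hc, hC₃, hT₃, h3⟩ := hlft A B
  obtain ⟨T₄, hT₄, h4⟩ := htls hRH
  have hlog : Tendsto Real.log atTop atTop := Real.tendsto_log_atTop
  obtain ⟨T₅, h5⟩ := eventually_atTop.1 (hlog.eventually_ge_atTop (C₃ ^ 2 + 1))
  obtain ⟨T₆, h6⟩ := eventually_atTop.1 (hlog.eventually_ge_atTop (4 / c + 1))
  refine ⟨4 * C₁ / c ^ 2, max T₁ (max T₂ (max T₃ (max T₄ (max T₅ T₆)))), by positivity,
    lt_max_of_lt_left hT₁, fun T H hT hH1 hH2 => ?_⟩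
  have hTT₁ : T₁ ≤ T := (le_max_left _ _).trans hT
  have hr1 := (le_max_right _ _).trans hT
  have hTT₂ : T₂ ≤ T := (le_max_left _ _).trans hr1
  have hr2 := (le_max_right _ _).trans hr1
  have hTT₃ : T₃ ≤ T := (le_max_left _ _).trans hr2
  have hr3 := (le_max_right _ _).trans hr2
  have hTT₄ : T₄ ≤ T := (le_max_left _ _).trans hr3
  have hr4 := (le_max_right _ _).trans hr3
  have hTT₅ : T₅ ≤ T := (le_max_left _ _).trans hr4
  have hTT₆ : T₆ ≤ T := (le_max_right _ _).trans hr4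
  have hT10 : 10 < T := lt_of_lt_of_le hT₁ hTT₁
  have hT0 : 0 < T := by linarith
  set L := Real.log T with hLdef
  have hL5 : C₃ ^ 2 + 1 ≤ L := h5 T hTT₅
  have hL6 : 4 / c + 1 ≤ L := h6 T hTT₆
  have hL1 : 1 ≤ L := by nlinarith [sq_nonneg C₃]
  have hL0 : 0 < L := by linarith
  have hsqrt : C₃ ≤ Real.sqrt L := Real.le_sqrt_of_sq_le (by linarith)
  have hsq1 : 1 ≤ Real.sqrt L := Real.one_le_sqrt.2 hL1
  have hHC : C₃ ≤ H := by linarith
  have hH10 : 10 ≤ H := by linarith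
  have hH0 : 0 < H := by linarith
  have hHT : H ≤ T := hH2.trans (div_le_self hT0.le hL1)
  obtain ⟨δ, ⟨hδ1, hδ2⟩, hδ⟩ := h1 T H hTT₁ hH1 hHT
  have hδ0 : 0 < δ := lt_of_lt_of_le (by positivity) hδ1
  have hδh : δ ≤ 1 / 2 := by
    refine hδ2.trans ?_
    rw [div_le_div_iff₀ hT0 (by norm_num)]
    linarith
  have h7 := hplt A B δ H hδ0 hδh hH0
  set S := {t : ℝ | T ≤ t ∧ t ≤ 2 * T ∧
      ∀ γ : ℝ, |γ - t| < 5 * Real.sqrt L * H → mz γ ≠ 1} with hS
  have hSm : MeasurableSet S := meas_centres T _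
  -- the lower bound on the set
  have hlow : ∀ t ∈ S, ENNReal.ofReal ((c * H * L ^ 2 / 2) ^ 2) ≤
      ENNReal.ofReal (‖SE A B δ H t‖ ^ 2) := by
    rintro t ⟨ht1, ht2, ht3⟩
    have e1 := h2 T hTT₂ t δ H ht1 ht2 hδ1 hδ2 (by linarith) hH2
    have e2 := h3 T t δ H hTT₃ ht1 ht2 hδ1 hδ2 hHC hH2
    have e3 := h4 T t δ H hTT₄ ht1 ht2 hδ1 hδ2 (by linarith) hH2 ht3
    have e4 : ‖IL A B T δ H t‖ ≤ ‖SE A B δ H t‖ + 2 := by
      have e5 : IL A B T δ H t = SE A B δ H t - SS T δ H t -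
          (SE A B δ H t - IL A B T δ H t - SS T δ H t) := by ring
      rw [e5]
      have e6 := norm_sub_le (SE A B δ H t - SS T δ H t)
        (SE A B δ H t - IL A B T δ H t - SS T δ H t)
      have e7 := norm_sub_le (SE A B δ H t) (SS T δ H t)
      linarith
    have e8 : 4 ≤ c * H * L ^ 2 := by
      have e9 : 4 / c ≤ L := by linarith
      have e10 : 4 ≤ c * L := by
        rw [div_le_iff₀ hc] at e9
        linarith
      have e11 : 1 ≤ H * L := by nlinarith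
      calc (4 : ℝ) ≤ (c * L) * 1 := by linarith
        _ ≤ (c * L) * (H * L) := mul_le_mul_of_nonneg_left e11 (by positivity)
        _ = c * H * L ^ 2 := by ring
    refine ENNReal.ofReal_le_ofReal (pow_le_pow_left₀ (by positivity) ?_ 2)
    linarith
  have hint : ENNReal.ofReal ((c * H * L ^ 2 / 2) ^ 2) * volume S ≤
      ∫⁻ t : ℝ, ENNReal.ofReal (‖SE A B δ H t‖ ^ 2) := by
    rw [← setLIntegral_const]
    exact (setLIntegral_mono' hSm hlow).trans (setLIntegral_le_lintegral _ _)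
  have hbd : ENNReal.ofReal ((c * H * L ^ 2 / 2) ^ 2) * volume S ≤
      ENNReal.ofReal (H ^ 2 * (C₁ * T * L ^ 7 / H)) := by
    refine hint.trans (h7.trans ?_)
    rw [ENNReal.ofReal_mul (by positivity)]
    exact mul_le_mul_right hδ _
  have hpos : 0 < (c * H * L ^ 2 / 2) ^ 2 := by positivity
  have hfin : volume S ≤ ENNReal.ofReal (H ^ 2 * (C₁ * T * L ^ 7 / H)) /
      ENNReal.ofReal ((c * H * L ^ 2 / 2) ^ 2) := by
    rw [ENNReal.le_div_iff_mul_le (Or.inl (by simpa using hpos.ne')) (Or.inl ENNReal.ofReal_ne_top),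
      mul_comm]
    exact hbd
  refine hfin.trans ?_
  rw [← ENNReal.ofReal_div_of_pos hpos]
  refine ENNReal.ofReal_le_ofReal (le_of_eq ?_)
  field_simp
  ring

end Pool.Agent.Lib.MP_6bc78b_nt.GP.H30
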