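import Pool.Agent.Lib.MP_6bc78b_nt.GP.Iface
import Pool.Agent.Lib.MP_6bc78b_nt.MS.P4.H30.Zfac
import Pool.Agent.Lib.MP_6bc78b_nt.MS.P1.POLY

/-! Project GP, module TLS (helper30): the sum over the zeros is small when no simple zero is
near. -/

set_option autoImplicit false

open Complex Filter Topology MeasureTheory ArithmeticFunction Set

namespace Pool.Agent.Lib.MP_6bc78b_nt.GP.H30

open Pool.Agent.Lib.MP_6bc78b_nt Pool.Agent.Lib.MP_6bc78b_nt.MS Pool.Agent.Lib.MP_6bc78b_nt.MS.P1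

/-- the number of zeros in `(T/2, 4T)` -/
theorem zeros_count : ∃ T0 : ℝ, 10 < T0 ∧ ∀ T : ℝ, T0 ≤ T → ∀ S : Finset ℝ,
    (∀ γ ∈ S, T / 2 < γ ∧ γ < 4 * T) →
    ∑ γ ∈ S, (zeroMult γ : ℝ) ≤ (4 * T + 2) * (Real.cosh (Real.pi / 2) * Real.log (4 * T + 1)) := by
  obtain ⟨T1, hT1, hw⟩ := H11.mult_window
  refine ⟨2 * T1 + 11, by linarith, fun T hT S hS => ?_⟩
  have hc : 0 < Real.cosh (Real.pi / 2) := Real.cosh_pos _
  have hlog : 0 ≤ Real.log (4 * T + 1) := Real.log_nonneg (by linarith)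
  have hmaps : ∀ γ ∈ S, round γ ∈ Finset.Icc (1 : ℤ) ⌊4 * T + 1⌋ := by
    intro γ hγ
    have h1 := abs_le.1 (abs_sub_round γ)
    have h2 := hS γ hγ
    rw [Finset.mem_Icc]
    constructor
    · have : (1 : ℝ) ≤ (round γ : ℝ) := by linarith [h1.1, h1.2]
      exact_mod_cast this
    · rw [Int.le_floor]
      linarith [h1.1, h1.2]
  rw [← Finset.sum_fiberwise_of_maps_to hmaps]
  have hterm : ∀ n ∈ Finset.Icc (1 : ℤ) ⌊4 * T + 1⌋,
      ∑ γ ∈ S with round γ = n, (zeroMult γ : ℝ) ≤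
        Real.cosh (Real.pi / 2) * Real.log (4 * T + 1) := by
    intro n hn
    rw [Finset.mem_Icc, Int.le_floor] at hn
    by_cases hemp : (S.filter fun γ => round γ = n).Nonempty
    · obtain ⟨γ, hγ⟩ := hemp
      rw [Finset.mem_filter] at hγ
      have h1 := abs_le.1 (abs_sub_round γ)
      rw [hγ.2] at h1
      have h2 := hS γ hγ.1
      have hn0 : (1 : ℝ) ≤ (n : ℝ) := by exact_mod_cast hn.1
      have hnT : T1 ≤ |(n : ℝ)| := by
        rw [abs_of_pos (by linarith)]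
        linarith [h1.1, h1.2]
      refine (hw n hnT _ fun γ' hγ' => ?_).trans ?_
      · rw [Finset.mem_filter] at hγ'
        have := abs_sub_round γ'
        rwa [hγ'.2] at this
      · rw [abs_of_pos (by linarith)]
        exact mul_le_mul_of_nonneg_left (Real.log_le_log (by linarith) hn.2) hc.le
    · rw [Finset.not_nonempty_iff_eq_empty] at hemp
      rw [hemp, Finset.sum_empty]
      positivity
  refine (Finset.sum_le_sum hterm).trans ?_
  rw [Finset.sum_const, nsmul_eq_mul]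
  refine mul_le_mul_of_nonneg_right ?_ (by positivity)
  rw [Int.card_Icc]
  have h1 : ((⌊4 * T + 1⌋ + 1 - 1).toNat : ℝ) ≤ 4 * T + 1 := by
    have h2 : (0 : ℤ) ≤ ⌊4 * T + 1⌋ := Int.floor_nonneg.2 (by linarith)
    have h3 : ((⌊4 * T + 1⌋ + 1 - 1).toNat : ℤ) = ⌊4 * T + 1⌋ := by
      rw [add_sub_cancel_right]
      exact Int.toNat_of_nonneg h2
    have h4 : ((⌊4 * T + 1⌋ + 1 - 1).toNat : ℝ) = ((⌊4 * T + 1⌋ : ℤ) : ℝ) := by
      exact_mod_cast h3
    rw [h4]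
    exact Int.floor_le _
  linarith

theorem GH_norm (H t γ : ℝ) : ‖GH H t (1 / 2 + γ * I)‖ = Real.exp (-((γ - t) ^ 2 / (2 * H ^ 2))) := by
  unfold GH
  rw [Complex.norm_exp]
  congr 1
  have h1 : ((1 / 2 + (γ : ℂ) * I) - 1 / 2 - t * I) ^ 2 / (2 * (H : ℂ) ^ 2) =
      ((-((γ - t) ^ 2 / (2 * H ^ 2)) : ℝ) : ℂ) := by
    push_cast
    have h2 : ((1 / 2 + (γ : ℂ) * I) - 1 / 2 - t * I) ^ 2 = (γ - t) ^ 2 * I ^ 2 := by ring
    rw [h2, I_sq]
    ring
  rw [h1, ofReal_re]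

/-- the asymptotic inequality -/
theorem tls_lim (C : ℝ) : ∀ᶠ T : ℝ in atTop,
    (4 * T + 2) * (Real.cosh (Real.pi / 2) * Real.log (4 * T + 1)) *
      (C * (2 + 4 * T) ^ (17 / 8 : ℝ) * Real.exp (-(25 / 2 * Real.log T))) ≤ 1 := by
  have hlim : Tendsto (fun T : ℝ => 6 * (Real.cosh (Real.pi / 2) * 5) * (|C| * 6 ^ (17 / 8 : ℝ)) *
      T ^ (-(1 : ℝ))) atTop (𝓝 (6 * (Real.cosh (Real.pi / 2) * 5) * (|C| * 6 ^ (17 / 8 : ℝ)) * 0)) :=
    (tendsto_rpow_neg_atTop one_pos).const_mul _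
  rw [mul_zero] at hlim
  filter_upwards [hlim.eventually (ge_mem_nhds one_pos), eventually_ge_atTop 1] with T hT hT1
  refine le_trans ?_ hT
  have hT0 : 0 < T := by linarith
  have hc : 0 < Real.cosh (Real.pi / 2) := Real.cosh_pos _
  have e1 : Real.exp (-(25 / 2 * Real.log T)) = T ^ (-(25 / 2) : ℝ) := by
    rw [Real.rpow_def_of_pos hT0]
    congr 1
    ring
  have e2 : Real.log (4 * T + 1) ≤ 5 * T := by
    have := Real.log_le_sub_one_of_pos (show 0 < 4 * T + 1 by linarith)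
    linarith
  have e3 : (2 + 4 * T) ^ (17 / 8 : ℝ) ≤ 6 ^ (17 / 8 : ℝ) * T ^ (17 / 8 : ℝ) := by
    rw [← Real.mul_rpow (by norm_num) hT0.le]
    exact Real.rpow_le_rpow (by linarith) (by linarith) (by norm_num)
  have e4 : C * (2 + 4 * T) ^ (17 / 8 : ℝ) ≤ |C| * (6 ^ (17 / 8 : ℝ) * T ^ (17 / 8 : ℝ)) :=
    mul_le_mul (le_abs_self C) e3 (by positivity) (abs_nonneg C)
  have hlog : 0 ≤ Real.log (4 * T + 1) := Real.log_nonneg (by linarith)
  calc (4 * T + 2) * (Real.cosh (Real.pi / 2) * Real.log (4 * T + 1)) *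
      (C * (2 + 4 * T) ^ (17 / 8 : ℝ) * Real.exp (-(25 / 2 * Real.log T)))
      ≤ (6 * T) * (Real.cosh (Real.pi / 2) * (5 * T)) *
        (|C| * (6 ^ (17 / 8 : ℝ) * T ^ (17 / 8 : ℝ)) * T ^ (-(25 / 2) : ℝ)) := by
        rw [e1]
        have h0 : 0 ≤ (4 * T + 2) * (Real.cosh (Real.pi / 2) * Real.log (4 * T + 1)) := by
          positivity
        have h1 : (4 * T + 2) * (Real.cosh (Real.pi / 2) * Real.log (4 * T + 1)) ≤
            (6 * T) * (Real.cosh (Real.pi / 2) * (5 * T)) := by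
          refine mul_le_mul (by linarith) ?_ (by positivity) (by positivity)
          exact mul_le_mul_of_nonneg_left e2 hc.le
        refine (mul_le_mul_of_nonneg_left (mul_le_mul_of_nonneg_right e4
          (Real.rpow_nonneg hT0.le _)) h0).trans ?_
        exact mul_le_mul_of_nonneg_right h1 (by positivity)
    _ = 6 * (Real.cosh (Real.pi / 2) * 5) * (|C| * 6 ^ (17 / 8 : ℝ)) *
        (T ^ 2 * (T ^ (17 / 8 : ℝ) * T ^ (-(25 / 2) : ℝ))) := by ring
    _ ≤ 6 * (Real.cosh (Real.pi / 2) * 5) * (|C| * 6 ^ (17 / 8 : ℝ)) * T ^ (-(1 : ℝ)) := by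
        refine mul_le_mul_of_nonneg_left ?_ (by positivity)
        have h1 : T ^ 2 = T ^ (2 : ℝ) := by norm_cast
        rw [h1, ← Real.rpow_add hT0, ← Real.rpow_add hT0]
        exact Real.rpow_le_rpow_of_exponent_le hT1 (by norm_num)

theorem tls (hG : GAMCStatement) : TLSStatement := by
  intro _
  obtain ⟨C, hC, hder⟩ := POLY.deriv_bound
  obtain ⟨T1, hT1, hcnt⟩ := zeros_count
  obtain ⟨T2, hT2⟩ := eventually_atTop.1 (tls_lim C)
  obtain ⟨-, -, hmz1, -, hmz2, hfin, -⟩ := MS.P4.H30.zfac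
  refine ⟨max T1 T2, lt_max_of_lt_left hT1, fun T t δ H hT hTt ht2 hδ1 _ hH1 _ hno => ?_⟩
  have hTT1 : T1 ≤ T := (le_max_left _ _).trans hT
  have hT10 : 10 < T := lt_of_lt_of_le hT1 hTT1
  have hT0 : 0 < T := by linarith
  have hδ0 : 0 ≤ δ := le_trans (by positivity) hδ1
  have hL : 0 ≤ Real.log T := Real.log_nonneg (by linarith)
  have hZ : {γ : ℝ | T / 2 < γ ∧ γ < 4 * T ∧ riemannZeta (1 / 2 + γ * I) = 0}.Finite :=
    (hfin (4 * T)).subset fun γ hγ => ⟨by linarith [hγ.1], hγ.2.1.le, hγ.2.2⟩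
  unfold SS
  rw [finsum_mem_eq_finite_toFinset_sum _ hZ]
  refine (norm_sum_le _ _).trans ?_
  have hterm : ∀ γ ∈ hZ.toFinset, ‖(mz γ : ℂ) * deriv riemannZeta (1 / 2 + γ * I) *
      om0 δ (1 / 2 + γ * I) * GH H t (1 / 2 + γ * I)‖ ≤
      (zeroMult γ : ℝ) * (C * (2 + 4 * T) ^ (17 / 8 : ℝ) *
        Real.exp (-(25 / 2 * Real.log T))) := by
    intro γ hγ
    rw [Set.Finite.mem_toFinset] at hγ
    obtain ⟨h1, h2, h3⟩ := hγ
    have hbd : 0 ≤ (zeroMult γ : ℝ) * (C * (2 + 4 * T) ^ (17 / 8 : ℝ) *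
        Real.exp (-(25 / 2 * Real.log T))) := by positivity
    by_cases hm : 2 ≤ mz γ
    · rw [hmz2 γ hm]
      simpa using hbd
    · have hm1 : mz γ = 1 := le_antisymm (by omega) (hmz1 γ h3)
      have hfar : 5 * Real.sqrt (Real.log T) * H ≤ |γ - t| := by
        by_contra hc
        exact hno γ (not_le.1 hc) hm1
      rw [norm_mul, norm_mul, norm_mul, Complex.norm_natCast, MS.P4.H30.mz_eq]
      have hγ0 : 0 ≤ γ := by linarith
      have e1 : ‖om0 δ (1 / 2 + γ * I)‖ ≤ 1 := hG.1 δ γ hδ0 hγ0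
      have e2 : ‖deriv riemannZeta (1 / 2 + γ * I)‖ ≤ C * (2 + 4 * T) ^ (17 / 8 : ℝ) := by
        have him : (1 / 2 + (γ : ℂ) * I).im = γ := by simp
        have hre : (1 / 2 + (γ : ℂ) * I).re = 1 / 2 := by simp
        refine (hder _ (by rw [hre]; norm_num) (by rw [hre]; norm_num)
          (by rw [him, abs_of_nonneg hγ0]; linarith)).trans ?_
        rw [him, abs_of_nonneg hγ0]
        exact mul_le_mul_of_nonneg_left (Real.rpow_le_rpow (by linarith) (by linarith)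
          (by norm_num)) hC.le
      have e3 : ‖GH H t (1 / 2 + γ * I)‖ ≤ Real.exp (-(25 / 2 * Real.log T)) := by
        rw [GH_norm]
        refine Real.exp_le_exp.2 (neg_le_neg ?_)
        have hH0 : 0 < H := by linarith
        rw [le_div_iff₀ (by positivity)]
        have h4 : (5 * Real.sqrt (Real.log T) * H) ^ 2 ≤ (γ - t) ^ 2 := by
          rw [← sq_abs (γ - t)]
          exact pow_le_pow_left₀ (by positivity) hfar 2
        have h5 : (5 * Real.sqrt (Real.log T) * H) ^ 2 = 25 * Real.log T * H ^ 2 := by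
          rw [mul_pow, mul_pow, Real.sq_sqrt hL]
          ring
        rw [h5] at h4
        linarith
      calc (zeroMult γ : ℝ) * ‖deriv riemannZeta (1 / 2 + γ * I)‖ * ‖om0 δ (1 / 2 + γ * I)‖ *
          ‖GH H t (1 / 2 + γ * I)‖
          ≤ (zeroMult γ : ℝ) * (C * (2 + 4 * T) ^ (17 / 8 : ℝ)) * 1 *
            Real.exp (-(25 / 2 * Real.log T)) := by
            gcongr
        _ = _ := by ring
  refine (Finset.sum_le_sum hterm).trans ?_
  rw [← Finset.sum_mul]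
  have h1 := hcnt T hTT1 hZ.toFinset fun γ hγ => by
    rw [Set.Finite.mem_toFinset] at hγ
    exact ⟨hγ.1, hγ.2.1⟩
  refine (mul_le_mul_of_nonneg_right h1 (by positivity)).trans ?_
  exact hT2 T ((le_max_right _ _).trans hT)

end Pool.Agent.Lib.MP_6bc78b_nt.GP.H30
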